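import Mathlib
import Pool.Agent.Y166.LT.Stm
import Pool.Agent.Y896.LT.CLS
import Pool.Agent.Y930.MC.Chart
import Pool.Agent.Y337.SM.Two

/-!
# The parameters of the covering after a linear change of the coordinates
-/

set_option autoImplicit false
set_option linter.unusedSectionVars false

namespace Pool.Agent.Y76.LT

open MvPolynomial Pool.Agent.Y166.GM Pool.Agent.Y166.SM Pool.Agent.Y198.MC Pool.Agent.Y166.LT
open FF (Place)

/-! ### Combinations of two vectors -/

section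
variable {L : Type} [CommRing L] {N : ℕ}

theorem ptY_comb (a b u v : Fin N → L) (u0 u1 v0 v1 A B ξ η ζ : L) (x : Fin 2 → L)
    (q : Fin 3 → L) (hu : ∀ i, u i = u0 * a i + u1 * b i) (hv : ∀ i, v i = v0 * a i + v1 * b i)
    (h1 : x 0 * u0 + x 1 * v0 = A) (h2 : x 0 * u1 + x 1 * v1 = A * ξ)
    (h3 : q 0 * (u0 * u0) + q 1 * (u0 * v0 + v0 * u0) + q 2 * (v0 * v0) = B)
    (h4 : q 0 * (u0 * u1) + q 1 * (u0 * v1 + v0 * u1) + q 2 * (v0 * v1) = B * η)
    (h5 : q 0 * (u1 * u1) + q 1 * (u1 * v1 + v1 * u1) + q 2 * (v1 * v1) = B * ζ) (s : Co N) :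
    ptY u v x q s = (u0 * v1 - v0 * u1) * (A * B) * ptY a b ![1, ξ] ![1, η, ζ] s := by
  have e1 : wdg u v s.1 = (u0 * v1 - v0 * u1) * wdg a b s.1 := by
    unfold wdg
    rw [hu, hu, hv, hv]
    ring
  have e2 : vec u v x s.2.1 = A * vec a b ![1, ξ] s.2.1 := by
    unfold vec
    simp only [Matrix.cons_val_zero, Matrix.cons_val_one]
    rw [hu, hv]
    linear_combination a s.2.1 * h1 + b s.2.1 * h2
  have e3 : quad u v q s.2.2 = B * quad a b ![1, η, ζ] s.2.2 := by
    unfold quad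
    simp only [Matrix.cons_val_zero, Matrix.cons_val_one, Matrix.cons_val]
    rw [hu, hu, hv, hv]
    linear_combination (a s.2.2.1 * a s.2.2.2) * h3 +
      (a s.2.2.1 * b s.2.2.2 + b s.2.2.1 * a s.2.2.2) * h4 + (b s.2.2.1 * b s.2.2.2) * h5
  unfold ptY
  rw [e1, e2, e3]
  ring

end

/-! ### The action of matrices -/

section
variable {k L : Type} [Field k] [Field L] [Algebra k L] {N : ℕ}

theorem act_inv (g : Matrix (Fin N) (Fin N) k) (hg : g.det ≠ 0) (u : Fin N → L) :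
    act g⁻¹ (act g u) = u := by
  funext i
  unfold act
  have h1 : ∀ j, algebraMap k L (g⁻¹ i j) * ∑ l, algebraMap k L (g j l) * u l =
      ∑ l, algebraMap k L (g⁻¹ i j * g j l) * u l := by
    intro j
    rw [Finset.mul_sum]
    refine Finset.sum_congr rfl fun l _ => ?_
    rw [map_mul]
    ring
  rw [Finset.sum_congr rfl fun j _ => h1 j, Finset.sum_comm]
  have h2 : ∀ l, ∑ j, algebraMap k L (g⁻¹ i j * g j l) * u l =
      algebraMap k L ((1 : Matrix (Fin N) (Fin N) k) i l) * u l := by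
    intro l
    rw [← Finset.sum_mul, ← map_sum, ← Matrix.nonsing_inv_mul g (isUnit_iff_ne_zero.2 hg),
      Matrix.mul_apply]
  rw [Finset.sum_congr rfl fun l _ => h2 l, Finset.sum_eq_single i]
  · rw [Matrix.one_apply_eq, map_one, one_mul]
  · intro l _ hl
    rw [Matrix.one_apply_ne (Ne.symm hl), map_zero, zero_mul]
  · intro h
    exact absurd (Finset.mem_univ _) h

theorem act_mem (S : Subalgebra k L) (g : Matrix (Fin N) (Fin N) k) (u : Fin N → L)
    (hu : ∀ i, u i ∈ S) (i : Fin N) : act g u i ∈ S := by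
  unfold act
  exact S.sum_mem fun j _ => S.mul_mem (S.algebraMap_mem _) (hu j)

theorem act_comb (g : Matrix (Fin N) (Fin N) k) (u a b : Fin N → L) (c d : L)
    (hu : ∀ i, u i = c * a i + d * b i) (i : Fin N) :
    act g u i = c * act g a i + d * act g b i := by
  unfold act
  rw [Finset.mul_sum, Finset.mul_sum, ← Finset.sum_add_distrib]
  refine Finset.sum_congr rfl fun j _ => ?_
  rw [hu]
  ring

theorem act_map {K : Type} [Field K] [Algebra k K] [Algebra K L] [IsScalarTower k K L]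
    (g : Matrix (Fin N) (Fin N) k) (u : Fin N → K) (i : Fin N) :
    algebraMap K L (act g u i) = act g (fun j => algebraMap K L (u j)) i := by
  unfold act
  rw [map_sum]
  refine Finset.sum_congr rfl fun j _ => ?_
  rw [map_mul, ← IsScalarTower.algebraMap_apply]

/-- The parameters after a linear change of the coordinates. -/
def tg {r : ℕ} (g : Matrix (Fin (r + 2)) (Fin (r + 2)) k) (t : Sy r → L) : Sy r → L :=
  Sum.elim (act g (tu t)) (Sum.elim (act g (tv t)) (Sum.elim (tx t) (tq t)))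

theorem tg_mem {r : ℕ} (S : Subalgebra k L) (g : Matrix (Fin (r + 2)) (Fin (r + 2)) k)
    (t : Sy r → L) (ht : ∀ i, t i ∈ S) (i : Sy r) : tg g t i ∈ S := by
  rcases i with i | i | i | i
  · exact act_mem S g _ (fun j => ht _) i
  · exact act_mem S g _ (fun j => ht _) i
  · exact ht _
  · exact ht _

theorem mem_tg {r : ℕ} (S : Subalgebra k L) (g : Matrix (Fin (r + 2)) (Fin (r + 2)) k)
    (hg : g.det ≠ 0) (t : Sy r → L) (ht : ∀ i, tg g t i ∈ S) (i : Sy r) : t i ∈ S := by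
  rcases i with i | i | i | i
  · have h := act_mem S g⁻¹ (act g (tu t)) (fun j => ht (.inl j)) i
    rw [act_inv g hg] at h
    exact h
  · have h := act_mem S g⁻¹ (act g (tv t)) (fun j => ht (.inr (.inl j))) i
    rw [act_inv g hg] at h
    exact h
  · exact ht (.inr (.inr (.inl i)))
  · exact ht (.inr (.inr (.inr i)))

end

/-! ### The formulas for the parameters -/

section
variable {k K L : Type} [Field k] [Field K] [Field L] [Algebra k K] [Algebra k L] [Algebra K L]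
  [IsScalarTower k K L] {r : ℕ} {Y : Ch r → K} {t : Sy r → L}

/-- The relations between the parameters and the coordinates of the chart. -/
structure Rel (Y : Ch r → L) (t : Sy r → L) : Prop where
  p : P01 t ≠ 0
  x : X0 t ≠ 0
  q : Q00 t ≠ 0
  u : ∀ i, tu t i = tu t 0 * U0 Y i + tu t 1 * V0 Y i
  v : ∀ i, tv t i = tv t 0 * U0 Y i + tv t 1 * V0 Y i
  x1 : vec (tu t) (tv t) (tx t) 1 = X0 t * Y (.inr 0)
  q1 : quad (tu t) (tv t) (tq t) (0, 1) = Q00 t * Y (.inr 1)
  q2 : quad (tu t) (tv t) (tq t) (1, 1) = Q00 t * Y (.inr 2)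

theorem rel_of (hp : P01 t ≠ 0) (hx : X0 t ≠ 0) (hq : Q00 t ≠ 0)
    (hc : ∀ j, algebraMap K L (Y j) = wS t (rrY r j) / wS t (Pool.Agent.Y198.MC.j0 r)) :
    Rel (fun j => algebraMap K L (Y j)) t := by
  have hp' : wdg (tu t) (tv t) (0, 1) ≠ 0 := hp
  have hx' : vec (tu t) (tv t) (tx t) 0 ≠ 0 := hx
  have hq' : quad (tu t) (tv t) (tq t) (0, 0) ≠ 0 := hq
  have hw : ∀ s a b, wS t (s, (a, b)) = wdg (tu t) (tv t) s *
      (vec (tu t) (tv t) (tx t) a * quad (tu t) (tv t) (tq t) b) := fun s a b => rfl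
  have hw0 : wS t (Pool.Agent.Y198.MC.j0 r) = wdg (tu t) (tv t) (0, 1) *
      (vec (tu t) (tv t) (tx t) 0 * quad (tu t) (tv t) (tq t) (0, 0)) := rfl
  have h0 : ∀ i : Fin r, algebraMap K L (Y (.inl (i, 0))) =
      wdg (tu t) (tv t) (i.succ.succ, 1) / wdg (tu t) (tv t) (0, 1) := by
    intro i
    rw [hc]
    show wS t ((if (0 : Fin 2) = 0 then (i.succ.succ, 1) else (0, i.succ.succ)), (0, (0, 0))) /
      _ = _
    rw [if_pos rfl, hw, hw0]
    field_simp
  have h1 : ∀ i : Fin r, algebraMap K L (Y (.inl (i, 1))) =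
      wdg (tu t) (tv t) (0, i.succ.succ) / wdg (tu t) (tv t) (0, 1) := by
    intro i
    rw [hc]
    show wS t ((if (1 : Fin 2) = 0 then (i.succ.succ, 1) else (0, i.succ.succ)), (0, (0, 0))) /
      _ = _
    rw [if_neg (by decide), hw, hw0]
    field_simp
  have hb := Pool.Agent.Y930.MC.Chart.norm_basis (tu t) (tv t) (fun j => algebraMap K L (Y j))
    hp' h0 h1
  refine ⟨hp, hx, hq, fun i => (hb i).1, fun i => (hb i).2, ?_, ?_, ?_⟩
  · show _ = vec (tu t) (tv t) (tx t) 0 * algebraMap K L (Y (.inr 0))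
    rw [hc]
    show _ = _ * (wS t ((0, 1), (1, (0, 0))) / _)
    rw [hw, hw0]
    field_simp
  · show _ = quad (tu t) (tv t) (tq t) (0, 0) * algebraMap K L (Y (.inr 1))
    rw [hc]
    show _ = _ * (wS t ((0, 1), (0, (0, 1))) / _)
    rw [hw, hw0]
    field_simp
  · show _ = quad (tu t) (tv t) (tq t) (0, 0) * algebraMap K L (Y (.inr 2))
    rw [hc]
    show _ = _ * (wS t ((0, 1), (0, (1, 1))) / _)
    rw [hw, hw0]
    field_simp

/-- The coordinates of the translated chart. -/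
theorem coord_tg (g : Matrix (Fin (r + 2)) (Fin (r + 2)) k)
    (hR : Rel (fun j => algebraMap K L (Y j)) t) (j : Ch r) :
    algebraMap K L (Yg g Y j) = wS (tg g t) (rrY r j) / wS (tg g t) (Pool.Agent.Y198.MC.j0 r) := by
  have key : ∀ s, wS (tg g t) s = P01 t * (X0 t * Q00 t) * algebraMap K L
      (ptY (act g (U0 Y)) (act g (V0 Y)) ![1, Y (.inr 0)] ![1, Y (.inr 1), Y (.inr 2)] s) := by
    intro s
    have e1 := ptY_comb (act g (U0 fun j => algebraMap K L (Y j)))
      (act g (V0 fun j => algebraMap K L (Y j))) (act g (tu t)) (act g (tv t))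
      (tu t 0) (tu t 1) (tv t 0) (tv t 1) (X0 t) (Q00 t) (algebraMap K L (Y (.inr 0)))
      (algebraMap K L (Y (.inr 1))) (algebraMap K L (Y (.inr 2))) (tx t) (tq t)
      (act_comb g _ _ _ _ _ hR.u) (act_comb g _ _ _ _ _ hR.v) rfl hR.x1 rfl hR.q1 hR.q2 s
    have e2 : wS (tg g t) s = ptY (act g (tu t)) (act g (tv t)) (tx t) (tq t) s := rfl
    rw [e2, e1, Pool.Agent.Y930.MC.Chart.map_ptY (algebraMap K L)]
    have e3 : (fun i => algebraMap K L (act g (U0 Y) i)) =
        act g (U0 fun j => algebraMap K L (Y j)) := by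
      funext i
      rw [act_map]
      congr 1
      funext l
      exact Pool.Agent.Y930.MC.Chart.map_U0 (algebraMap K L) Y l
    have e4 : (fun i => algebraMap K L (act g (V0 Y) i)) =
        act g (V0 fun j => algebraMap K L (Y j)) := by
      funext i
      rw [act_map]
      congr 1
      funext l
      exact Pool.Agent.Y930.MC.Chart.map_V0 (algebraMap K L) Y l
    have e5 : (fun i => algebraMap K L ((![1, Y (.inr 0)] : Fin 2 → K) i)) =
        ![1, algebraMap K L (Y (.inr 0))] := by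
      funext i
      fin_cases i
      · exact map_one _
      · rfl
    have e6 : (fun i => algebraMap K L ((![1, Y (.inr 1), Y (.inr 2)] : Fin 3 → K) i)) =
        ![1, algebraMap K L (Y (.inr 1)), algebraMap K L (Y (.inr 2))] := by
      funext i
      fin_cases i
      · exact map_one _
      · rfl
      · rfl
    rw [e3, e4, e5, e6]
    rfl
  have hne : P01 t * (X0 t * Q00 t) ≠ 0 := mul_ne_zero hR.p (mul_ne_zero hR.x hR.q)
  unfold Yg
  rw [map_div₀, key, key, mul_div_mul_left _ _ hne]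

/-- The six additional parameters. -/
def TT (t : Sy r → L) : Fin 6 → L := ![tu t 0, tu t 1, tv t 0, tv t 1, X0 t, Q00 t]

/-- All parameters are rational functions of the chart coordinates and the additional ones. -/
theorem mem_of_T (S : Subalgebra k L) {Z : Ch r → L} (hR : Rel Z t) (hT : ∀ i, TT t i ∈ S)
    (hZ : ∀ j, Z j ∈ S) (hD : (P01 t)⁻¹ ∈ S) (i : Sy r) : t i ∈ S := by
  have hU : ∀ i, U0 Z i ∈ S := by
    intro i
    refine Fin.cases ?_ (fun i => ?_) i
    · exact S.one_mem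
    · refine Fin.cases ?_ (fun i => ?_) i
      · exact S.zero_mem
      · exact hZ _
  have hV : ∀ i, V0 Z i ∈ S := by
    intro i
    refine Fin.cases ?_ (fun i => ?_) i
    · exact S.zero_mem
    · refine Fin.cases ?_ (fun i => ?_) i
      · exact S.one_mem
      · exact hZ _
  have h0 : tu t 0 ∈ S := hT 0
  have h1 : tu t 1 ∈ S := hT 1
  have h2 : tv t 0 ∈ S := hT 2
  have h3 : tv t 1 ∈ S := hT 3
  have h4 : X0 t ∈ S := hT 4
  have h5 : Q00 t ∈ S := hT 5
  have hX1 : X0 t * Z (.inr 0) ∈ S := S.mul_mem h4 (hZ _)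
  have hQ1 : Q00 t * Z (.inr 1) ∈ S := S.mul_mem h5 (hZ _)
  have hQ2 : Q00 t * Z (.inr 2) ∈ S := S.mul_mem h5 (hZ _)
  have hD0 : P01 t ≠ 0 := hR.p
  have hDe : P01 t = tu t 0 * tv t 1 - tv t 0 * tu t 1 := rfl
  have hXe : X0 t = tx t 0 * tu t 0 + tx t 1 * tv t 0 := rfl
  have hX1e : X0 t * Z (.inr 0) = tx t 0 * tu t 1 + tx t 1 * tv t 1 := hR.x1.symm
  have hQe : Q00 t = tq t 0 * (tu t 0 * tu t 0) + tq t 1 * (tu t 0 * tv t 0 + tv t 0 * tu t 0) +
      tq t 2 * (tv t 0 * tv t 0) := rfl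
  have hQ1e : Q00 t * Z (.inr 1) = tq t 0 * (tu t 0 * tu t 1) +
      tq t 1 * (tu t 0 * tv t 1 + tv t 0 * tu t 1) + tq t 2 * (tv t 0 * tv t 1) := hR.q1.symm
  have hQ2e : Q00 t * Z (.inr 2) = tq t 0 * (tu t 1 * tu t 1) +
      tq t 1 * (tu t 1 * tv t 1 + tv t 1 * tu t 1) + tq t 2 * (tv t 1 * tv t 1) := hR.q2.symm
  have hdiv : ∀ {a b : L}, b ∈ S → a * P01 t = b → a ∈ S := by
    intro a b hb h
    have h' : a = b * (P01 t)⁻¹ := by
      rw [← h, mul_assoc, mul_inv_cancel₀ hD0, mul_one]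
    rw [h']
    exact S.mul_mem hb hD
  have hdiv2 : ∀ {a b : L}, b ∈ S → a * P01 t ^ 2 = b → a ∈ S := by
    intro a b hb h
    refine hdiv (hdiv hb ?_) rfl
    rw [← h]
    ring
  have two : (2 : L) ∈ S := by
    have := S.natCast_mem 2
    exact_mod_cast this
  rcases i with i | i | i | i
  · have h : t (.inl i) = _ := hR.u i
    rw [h]
    exact S.add_mem (S.mul_mem h0 (hU i)) (S.mul_mem h1 (hV i))
  · have h : t (.inr (.inl i)) = _ := hR.v i
    rw [h]
    exact S.add_mem (S.mul_mem h2 (hU i)) (S.mul_mem h3 (hV i))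
  · revert i
    rw [Fin.forall_fin_two]
    constructor
    · show tx t 0 ∈ S
      refine hdiv (S.sub_mem (S.mul_mem h4 h3) (S.mul_mem hX1 h2)) ?_
      rw [hX1e, hDe, hXe]
      ring
    · show tx t 1 ∈ S
      refine hdiv (S.sub_mem (S.mul_mem hX1 h0) (S.mul_mem h4 h1)) ?_
      rw [hX1e, hDe, hXe]
      ring
  · have hall : tq t 0 ∈ S ∧ tq t 1 ∈ S ∧ tq t 2 ∈ S := by
      refine ⟨?_, ?_, ?_⟩
      · refine hdiv2 (b := Q00 t * (tv t 1 * tv t 1) - 2 * (Q00 t * Z (.inr 1)) * (tv t 0 * tv t 1)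
          + (Q00 t * Z (.inr 2)) * (tv t 0 * tv t 0)) ?_ ?_
        · exact S.add_mem (S.sub_mem (S.mul_mem h5 (S.mul_mem h3 h3)) (S.mul_mem (S.mul_mem two hQ1)
            (S.mul_mem h2 h3))) (S.mul_mem hQ2 (S.mul_mem h2 h2))
        · rw [hQ1e, hQ2e, hDe, hQe]
          ring
      · refine hdiv2 (b := (Q00 t * Z (.inr 1)) * (tu t 0 * tv t 1 + tu t 1 * tv t 0) -
          Q00 t * (tu t 1 * tv t 1) - (Q00 t * Z (.inr 2)) * (tu t 0 * tv t 0)) ?_ ?_
        · exact S.sub_mem (S.sub_mem (S.mul_mem hQ1 (S.add_mem (S.mul_mem h0 h3) (S.mul_mem h1 h2)))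
            (S.mul_mem h5 (S.mul_mem h1 h3))) (S.mul_mem hQ2 (S.mul_mem h0 h2))
        · rw [hQ1e, hQ2e, hDe, hQe]
          ring
      · refine hdiv2 (b := Q00 t * (tu t 1 * tu t 1) - 2 * (Q00 t * Z (.inr 1)) * (tu t 0 * tu t 1)
          + (Q00 t * Z (.inr 2)) * (tu t 0 * tu t 0)) ?_ ?_
        · exact S.add_mem (S.sub_mem (S.mul_mem h5 (S.mul_mem h1 h1)) (S.mul_mem (S.mul_mem two hQ1)
            (S.mul_mem h0 h1))) (S.mul_mem hQ2 (S.mul_mem h0 h0))
        · rw [hQ1e, hQ2e, hDe, hQe]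
          ring
    fin_cases i
    · exact hall.1
    · exact hall.2.1
    · exact hall.2.2

end

end Pool.Agent.Y76.LT
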