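import Mathlib
import Pool.Agent.Y76.LT.Geo

/-!
# The unramified valuations are induced by irreducible polynomials in the parameters
-/

set_option autoImplicit false
set_option linter.unusedSectionVars false

namespace Pool.Agent.Y76.LT.EXT

open MvPolynomial Pool.Agent.Y166.GM Pool.Agent.Y166.SM Pool.Agent.Y198.MC Pool.Agent.Y166.LT
open FF (Place)

/-! ### The field of the parameters -/

section
variable {k K L : Type} [Field k] [Field K] [Field L] [Algebra k K] [Algebra k L] [Algebra K L]
  [IsScalarTower k K L] {r : ℕ} {Y : Ch r → K} {t : Sy r → L}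

theorem card_Sy (r : ℕ) : Fintype.card (Sy r) = 2 * r + 9 := by
  simp only [Fintype.card_sum, Fintype.card_fin]
  omega

theorem card_Ch (r : ℕ) : Fintype.card (Ch r) = 2 * r + 3 := by
  simp only [Fintype.card_sum, Fintype.card_fin, Fintype.card_prod]
  omega

theorem emb_tg (hE : Emb k K L r Y t) (hR : Rel (fun j => algebraMap K L (Y j)) t)
    (g : Matrix (Fin (r + 2)) (Fin (r + 2)) k) (hg : g.det ≠ 0) :
    Emb k K L r (Yg g Y) (tg g t) := by
  have hmem : ∀ i, t i ∈ IntermediateField.adjoin k (Set.range (tg g t)) := fun i =>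
    mem_tg (IntermediateField.adjoin k (Set.range (tg g t))).toSubalgebra g hg t
      (fun i => IntermediateField.subset_adjoin k _ ⟨i, rfl⟩) i
  refine ⟨?_, ?_, coord_tg g hR⟩
  · exact Pool.Agent.Y337.SM.stmInd k L (Sy r) (Sy r) t (tg g t) hE.ind le_rfl hmem
  · rw [eq_top_iff, ← hE.top, IntermediateField.adjoin_le_iff]
    rintro _ ⟨i, rfl⟩
    exact hmem i

theorem img_mem (hY : IntermediateField.adjoin k (Set.range Y) = ⊤) (a : K) :
    algebraMap K L a ∈ IntermediateField.adjoin k (Set.range fun j => algebraMap K L (Y j)) := by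
  have h1 := IntermediateField.adjoin_map k (Set.range Y) (IsScalarTower.toAlgHom k K L)
  have h2 : (fun j => algebraMap K L (Y j)) = (IsScalarTower.toAlgHom k K L) ∘ Y := rfl
  rw [h2, Set.range_comp, ← h1, hY]
  exact ⟨a, trivial, rfl⟩

/-- The additional parameters are independent over `K`. -/
theorem ind_T (hE : Emb k K L r Y t) (hR : Rel (fun j => algebraMap K L (Y j)) t)
    (hY : IntermediateField.adjoin k (Set.range Y) = ⊤) : AlgebraicIndependent K (TT t) := by
  have h1 : AlgebraicIndependent k (Sum.elim (TT t) fun j => algebraMap K L (Y j)) := by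
    refine Pool.Agent.Y337.SM.stmInd k L (Sy r) (Fin 6 ⊕ Ch r) t _ hE.ind ?_ ?_
    · rw [Nat.card_eq_fintype_card, Nat.card_eq_fintype_card, card_Sy, Fintype.card_sum, card_Ch,
        Fintype.card_fin]
      omega
    · have hT : ∀ i, TT t i ∈ IntermediateField.adjoin k
          (Set.range (Sum.elim (TT t) fun j => algebraMap K L (Y j))) := fun i =>
        IntermediateField.subset_adjoin k _ ⟨.inl i, rfl⟩
      refine mem_of_T (IntermediateField.adjoin k
        (Set.range (Sum.elim (TT t) fun j => algebraMap K L (Y j)))).toSubalgebra hR hT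
        (fun j => IntermediateField.subset_adjoin k _ ⟨.inr j, rfl⟩) ?_
      refine IntermediateField.inv_mem _ ?_
      exact sub_mem (mul_mem (hT 0) (hT 3)) (mul_mem (hT 2) (hT 1))
  obtain ⟨-, h2⟩ := AlgebraicIndependent.sumElim_iff.1 h1
  let K1 := IntermediateField.adjoin k (Set.range fun j => algebraMap K L (Y j))
  have h3 : AlgebraicIndependent K1 (TT t) := by
    letI : Algebra (Algebra.adjoin k (Set.range fun j => algebraMap K L (Y j))) K1 :=
      (Subalgebra.inclusion (IntermediateField.algebra_adjoin_le_adjoin k _)).toAlgebra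
    haveI : IsScalarTower (Algebra.adjoin k (Set.range fun j => algebraMap K L (Y j))) K1 L :=
      IsScalarTower.of_algebraMap_eq fun x => rfl
    haveI : Algebra.IsAlgebraic (Algebra.adjoin k (Set.range fun j => algebraMap K L (Y j))) K1 := by
      refine ⟨fun y => ?_⟩
      obtain ⟨a, ha, b, hb, hab⟩ := IntermediateField.mem_adjoin_iff_div.1 y.2
      have e1 : y = algebraMap (Algebra.adjoin k (Set.range fun j => algebraMap K L (Y j))) K1
          ⟨a, ha⟩ * (algebraMap (Algebra.adjoin k (Set.range fun j => algebraMap K L (Y j))) K1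
          ⟨b, hb⟩)⁻¹ := by
        apply Subtype.ext
        rw [hab, div_eq_mul_inv]
        rfl
      rw [e1]
      exact (isAlgebraic_algebraMap _).mul (isAlgebraic_algebraMap _).inv
    exact h2.extendScalars K1
  exact AlgebraicIndependent.of_ringHom_of_comp_eq (f := (algebraMap K L).codRestrict K1
    (img_mem hY)) (g := RingHom.id L) h3 (RingHom.injective _) (by ext x; rfl)

/-- The additional parameters generate the field of the parameters. -/
theorem top_T (hE : Emb k K L r Y t) (hR : Rel (fun j => algebraMap K L (Y j)) t) :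
    IntermediateField.adjoin K (Set.range (TT t)) = ⊤ := by
  have hT : ∀ i, TT t i ∈ IntermediateField.adjoin K (Set.range (TT t)) := fun i =>
    IntermediateField.subset_adjoin K _ ⟨i, rfl⟩
  have hmem : ∀ i, t i ∈ (IntermediateField.adjoin K (Set.range (TT t))).restrictScalars k := by
    refine mem_of_T ((IntermediateField.adjoin K (Set.range (TT t))).restrictScalars
      k).toSubalgebra hR hT (fun j => IntermediateField.algebraMap_mem _ (Y j)) ?_
    exact IntermediateField.inv_mem _ (sub_mem (mul_mem (hT 0) (hT 3)) (mul_mem (hT 2) (hT 1)))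
  rw [eq_top_iff]
  intro a _
  have h1 : a ∈ IntermediateField.adjoin k (Set.range t) := by
    rw [hE.top]
    trivial
  have h2 : IntermediateField.adjoin k (Set.range t) ≤
      (IntermediateField.adjoin K (Set.range (TT t))).restrictScalars k := by
    rw [IntermediateField.adjoin_le_iff]
    rintro _ ⟨i, rfl⟩
    exact hmem i
  exact h2 h1

end

/-! ### Residues -/

section
variable {k K L : Type} [Field k] [Field K] [Field L] [Algebra k K] [Algebra k L] [Algebra K L]
  [IsScalarTower k K L]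

/-- The substitution in two steps. -/
theorem aeval_two {ι κ : Type} (T : ι → L) (y : κ → K) (p : MvPolynomial (ι ⊕ κ) k) :
    aeval T (MvPolynomial.map (aeval y : MvPolynomial κ k →ₐ[k] K).toRingHom
      (sumAlgEquiv k ι κ p)) = aeval (Sum.elim T fun j => algebraMap K L (y j)) p := by
  induction p using MvPolynomial.induction_on with
  | C a =>
    have e1 : sumAlgEquiv k ι κ (C a) = C (C a) := by
      have := (sumAlgEquiv k ι κ).commutes a
      exact this
    rw [e1, map_C, aeval_C, aeval_C]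
    show algebraMap K L (aeval y (C a)) = _
    rw [aeval_C, ← IsScalarTower.algebraMap_apply]
  | add p q hp hq => rw [map_add, map_add, map_add, map_add, hp, hq]
  | mul_X p i hp =>
    rw [map_mul, map_mul, map_mul, map_mul, hp, aeval_X]
    congr 1
    rcases i with i | i
    · have e1 : sumAlgEquiv k ι κ (X (.inl i)) = X i := by
        simp
      rw [e1, map_X, aeval_X]
      rfl
    · have e1 : sumAlgEquiv k ι κ (X (.inr i)) = C (X i) := by
        simp
      rw [e1, map_C, aeval_C]
      show algebraMap K L (aeval y (X i)) = _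
      rw [aeval_X]
      rfl

theorem residues {ι κ : Type} (v : Place k K) (w : Place k L) (T : ι → L) (y : κ → K)
    (hw : ∀ F : MvPolynomial ι K, (∀ s, v.Reg (F.coeff s)) →
      w.Reg (aeval T F) ∧ ((∃ s, F.coeff s ≠ 0 ∧ v.ord (F.coeff s) = 0) →
        aeval T F ≠ 0 ∧ w.ord (aeval T F) = 0))
    (hy : ∀ p : MvPolynomial κ k, p ≠ 0 → aeval y p ≠ 0 ∧ v.ord (aeval y p) = 0)
    (p : MvPolynomial (ι ⊕ κ) k) (hp : p ≠ 0) :
    aeval (Sum.elim T fun j => algebraMap K L (y j)) p ≠ 0 ∧
      w.ord (aeval (Sum.elim T fun j => algebraMap K L (y j)) p) = 0 := by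
  rw [← aeval_two]
  set q := sumAlgEquiv k ι κ p with hq
  have hq0 : q ≠ 0 := by
    intro h
    apply hp
    rw [hq] at h
    exact (map_eq_zero_iff _ (sumAlgEquiv k ι κ).injective).1 h
  have hc : ∀ s, (MvPolynomial.map (aeval y : MvPolynomial κ k →ₐ[k] K).toRingHom q).coeff s =
      aeval y (q.coeff s) := fun s => coeff_map _ _ _
  have h1 := hw (MvPolynomial.map (aeval y : MvPolynomial κ k →ₐ[k] K).toRingHom q) (by
    intro s
    rw [hc]
    by_cases h : q.coeff s = 0
    · rw [h, map_zero]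
      exact v.reg_zero
    · right
      rw [(hy _ h).2])
  refine h1.2 ?_
  obtain ⟨s, hs⟩ := exists_coeff_ne_zero hq0
  refine ⟨s, ?_, ?_⟩
  · rw [hc]
    exact (hy _ hs).1
  · rw [hc]
    exact (hy _ hs).2

/-- The valuation ring as a subalgebra. -/
def OO (w : Place k L) : Subalgebra k L where
  carrier := {f | w.Reg f}
  mul_mem' := w.reg_mul
  add_mem' := w.reg_add
  algebraMap_mem' := w.reg_const

end

/-! ### The theorem -/

section
variable {L : Type} [CommRing L] {r : ℕ}

theorem ptX_j0 (t : Sy r → L) :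
    ptX (tu t) (tv t) (mulc (tx t) (tq t)) (Pool.Agent.Y198.MC.j0 r) =
      P01 t * (3 * (X0 t * Q00 t)) := by
  unfold ptX P01 X0 Q00 vec quad cub mulc Pool.Agent.Y198.MC.j0
  simp only [Matrix.cons_val_zero, Matrix.cons_val_one, Matrix.cons_val]
  ring

end

section
variable {k L : Type} [Field k] [Field L] [Algebra k L] {r : ℕ}

theorem TT_mem (S : Subalgebra k L) (t : Sy r → L) (ht : ∀ i, t i ∈ S) (i : Fin 6) :
    TT t i ∈ S := by
  have h4 : X0 t ∈ S := S.add_mem (S.mul_mem (ht _) (ht _)) (S.mul_mem (ht _) (ht _))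
  have h5 : Q00 t ∈ S := by
    unfold Q00 quad
    exact S.add_mem (S.add_mem (S.mul_mem (ht _) (S.mul_mem (ht _) (ht _)))
      (S.mul_mem (ht _) (S.add_mem (S.mul_mem (ht _) (ht _)) (S.mul_mem (ht _) (ht _)))))
      (S.mul_mem (ht _) (S.mul_mem (ht _) (ht _)))
  fin_cases i
  · exact ht _
  · exact ht _
  · exact ht _
  · exact ht _
  · exact h4
  · exact h5

theorem ptX_mem (S : Subalgebra k L) (u v : Fin (r + 2) → L) (c : Fin 4 → L)
    (hu : ∀ i, u i ∈ S) (hv : ∀ i, v i ∈ S) (hc : ∀ i, c i ∈ S) (j : Co (r + 2)) :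
    ptX u v c j ∈ S := by
  unfold ptX wdg cub
  have m3 : ∀ {a b c d : L}, a ∈ S → b ∈ S → c ∈ S → d ∈ S → a * (b * c * d) ∈ S :=
    fun ha hb hc hd => S.mul_mem ha (S.mul_mem (S.mul_mem hb hc) hd)
  have m2 : ∀ {b c d : L}, b ∈ S → c ∈ S → d ∈ S → b * c * d ∈ S :=
    fun hb hc hd => S.mul_mem (S.mul_mem hb hc) hd
  refine S.mul_mem (S.sub_mem (S.mul_mem (hu _) (hv _)) (S.mul_mem (hv _) (hu _))) ?_
  refine S.add_mem (S.add_mem (S.add_mem ?_ ?_) ?_) ?_
  · exact m3 (hc _) (hu _) (hu _) (hu _)
  · exact S.mul_mem (hc _) (S.add_mem (S.add_mem (m2 (hu _) (hu _) (hv _))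
      (m2 (hu _) (hv _) (hu _))) (m2 (hv _) (hu _) (hu _)))
  · exact S.mul_mem (hc _) (S.add_mem (S.add_mem (m2 (hu _) (hv _) (hv _))
      (m2 (hv _) (hu _) (hv _))) (m2 (hv _) (hv _) (hu _)))
  · exact m3 (hc _) (hv _) (hv _) (hv _)

theorem mulc_mem (S : Subalgebra k L) (x : Fin 2 → L) (q : Fin 3 → L) (hx : ∀ i, x i ∈ S)
    (hq : ∀ i, q i ∈ S) (i : Fin 4) : mulc x q i ∈ S := by
  have h2 : (2 : L) ∈ S := by
    have := S.natCast_mem 2
    exact_mod_cast this
  have h3 : (3 : L) ∈ S := by
    have := S.natCast_mem 3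
    exact_mod_cast this
  fin_cases i
  · exact S.mul_mem (S.mul_mem h3 (hx 0)) (hq 0)
  · exact S.add_mem (S.mul_mem (hx 1) (hq 0)) (S.mul_mem (S.mul_mem h2 (hx 0)) (hq 1))
  · exact S.add_mem (S.mul_mem (S.mul_mem h2 (hx 1)) (hq 1)) (S.mul_mem (hx 0) (hq 2))
  · exact S.mul_mem (S.mul_mem h3 (hx 1)) (hq 2)

/-- A place with a principal centre on an affine space is the place of an irreducible
polynomial. -/
theorem isPl_of {σ : Type} (t : σ → L) (hind : AlgebraicIndependent k t)
    (htop : IntermediateField.adjoin k (Set.range t) = ⊤) (w : Place k L)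
    (h : MvPolynomial σ k) (hirr : Irreducible h) (hpos : 0 < w.ord (aeval t h))
    (hnd : ∀ F : MvPolynomial σ k, ¬ h ∣ F → w.ord (aeval t F) = 0) : IsPl t w h := by
  refine ⟨?_, hnd⟩
  have hinj : ∀ F : MvPolynomial σ k, F ≠ 0 → aeval t F ≠ 0 := by
    intro F hF h0
    apply hF
    have := hind
    rw [algebraicIndependent_iff] at this
    exact this F h0
  have hdvd : ∀ F : MvPolynomial σ k, w.ord (aeval t h) ∣ w.ord (aeval t F) := by
    intro F
    by_cases hF : F = 0
    · rw [hF, map_zero, w.ord_zero]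
      exact dvd_zero _
    · obtain ⟨n, G, hG, rfl⟩ := WfDvdMonoid.max_power_factor hF hirr
      have hG0 : G ≠ 0 := by
        rintro rfl
        exact hG (dvd_zero _)
      rw [map_mul, map_pow, w.ord_mul (pow_ne_zero _ (hinj h hirr.ne_zero)) (hinj G hG0),
        w.ord_pow, hnd G hG, add_zero]
      exact dvd_mul_left _ _
  obtain ⟨a, ha0, ha1⟩ := w.surj
  have htm : a ∈ IntermediateField.adjoin k (Set.range t) := by rw [htop]; trivial
  obtain ⟨A, B, hAB'⟩ := (IntermediateField.mem_adjoin_range_iff k t a).1 htm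
  have hA0 : aeval t A ≠ 0 := by
    intro h0
    rw [hAB', h0, zero_div] at ha0
    exact ha0 rfl
  have hB0 : aeval t B ≠ 0 := by
    intro h0
    rw [hAB', h0, div_zero] at ha0
    exact ha0 rfl
  rw [hAB', w.ord_div hA0 hB0] at ha1
  have h1 : w.ord (aeval t h) ∣ 1 := by
    rw [← ha1]
    exact dvd_sub (hdvd A) (hdvd B)
  exact Int.eq_one_of_dvd_one hpos.le h1

theorem not_triv {σ : Type} (t : σ → L) (htop : IntermediateField.adjoin k (Set.range t) = ⊤)
    (w : Place k L) (h : ∀ F : MvPolynomial σ k, w.ord (aeval t F) = 0) : False := by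
  obtain ⟨a, ha0, ha1⟩ := w.surj
  have htm : a ∈ IntermediateField.adjoin k (Set.range t) := by rw [htop]; trivial
  obtain ⟨A, B, hAB'⟩ := (IntermediateField.mem_adjoin_range_iff k t a).1 htm
  have hA0 : aeval t A ≠ 0 := by
    intro h0
    rw [hAB', h0, zero_div] at ha0
    exact ha0 rfl
  have hB0 : aeval t B ≠ 0 := by
    intro h0
    rw [hAB', h0, div_zero] at ha0
    exact ha0 rfl
  rw [hAB', w.ord_div hA0 hB0, h A, h B] at ha1
  norm_num at ha1

end

theorem done : S_GAUSS → S_CENT → S_CHOOSE → S_SYM → S_INV → S_INT → S_FORM → S_EXT := by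
  intro hGauss hCent hChoose hSym hInv hInt hForm k K L _ _ _ _ _ _ _ _ r Y x t hC hE v hU
  obtain ⟨g, hg, hcen⟩ := hChoose k K r Y x hC v
  have hC' := hSym k K r Y x hC g hg
  have hreg := hInt k K r _ _ hC' v hcen
  have hU' := ((hInv k K (r + 2) (2 * r + 3) x g hg).2 v).2 hU
  obtain ⟨-, hp, hx, hq, -, -⟩ := hForm k K L r Y x t hC hE
  have hR := rel_of hp hx hq hE.coord
  have hE' := emb_tg hE hR g hg
  obtain ⟨-, hp', hx', hq', ⟨c, hc, hcx⟩, -⟩ := hForm k K L r _ _ _ hC' hE'
  have hR' := rel_of hp' hx' hq' hE'.coord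
  obtain ⟨w, hwv, hwR⟩ := hGauss k K L (Fin 6) (TT (tg g t)) (ind_T hE' hR' hC'.top)
    (top_T hE' hR') v
  obtain ⟨hval, y, hy, hyi⟩ := hU'
  have hres := residues v w (TT (tg g t)) y hwR hyi
  have hT : ∀ i, TT (tg g t) i ≠ 0 ∧ w.ord (TT (tg g t) i) = 0 := by
    intro i
    have h1 := hres (X (.inl i)) (X_ne_zero _)
    rw [aeval_X] at h1
    exact h1
  have hD : w.ord (P01 (tg g t)) = 0 := by
    have h1 := (hres (X (.inl 0) * X (.inl 3) - X (.inl 2) * X (.inl 1)) (by
      intro h
      have h2 := congrArg (eval (Sum.elim (fun i : Fin 6 => if i = 0 ∨ i = 3 then (1 : k) else 0)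
        (fun _ => 0))) h
      simp at h2)).2
    rw [map_sub, map_mul, map_mul, aeval_X, aeval_X, aeval_X, aeval_X] at h1
    exact h1
  have hregw : ∀ φ : K, v.Reg φ → w.Reg (algebraMap K L φ) := by
    intro φ h
    rcases h with h | h
    · left
      rw [h, map_zero]
    · right
      rw [hwv]
      exact h
  have hregt' : ∀ i, tg g t i ∈ OO w := mem_of_T (OO w) hR' (fun i => Or.inr (hT i).2.ge)
    (fun j => hregw _ (hreg j)) (Or.inr (by rw [w.ord_inv, hD, neg_zero]))
  have hregt : ∀ i, w.Reg (t i) := mem_tg (OO w) g hg t hregt'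
  -- everything is a polynomial in the parameters
  let R0 : Subalgebra k L := (aeval t : MvPolynomial (Sy r) k →ₐ[k] L).range
  have ht0 : ∀ i, t i ∈ R0 := fun i => ⟨X i, aeval_X _ _⟩
  have ht1 : ∀ i, tg g t i ∈ R0 := tg_mem R0 g t ht0
  have hx1 : ∀ j, ∃ P : MvPolynomial (Sy r) k, aeval t P =
      ptX (tu (tg g t)) (tv (tg g t)) (mulc (tx (tg g t)) (tq (tg g t))) j := fun j =>
    ptX_mem R0 _ _ _ (fun i => ht1 _) (fun i => ht1 _)
      (mulc_mem R0 _ _ (fun i => ht1 _) fun i => ht1 _) j
  choose xq hxq using hx1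
  have h3L : (3 : L) ≠ 0 := by
    have : CharZero L := charZero_of_injective_algebraMap (algebraMap k L).injective
    norm_num
  have h3o : w.ord (3 : L) = 0 := by
    have := w.ord_const (c := (3 : k)) (by norm_num)
    rwa [map_ofNat] at this
  have hj0 : ptX (tu (tg g t)) (tv (tg g t)) (mulc (tx (tg g t)) (tq (tg g t)))
      (Pool.Agent.Y198.MC.j0 r) ≠ 0 ∧
      w.ord (ptX (tu (tg g t)) (tv (tg g t)) (mulc (tx (tg g t)) (tq (tg g t)))
        (Pool.Agent.Y198.MC.j0 r)) = 0 := by
    rw [ptX_j0]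
    have e4 : w.ord (X0 (tg g t)) = 0 := (hT 4).2
    have e5 : w.ord (Q00 (tg g t)) = 0 := (hT 5).2
    refine ⟨mul_ne_zero hp' (mul_ne_zero h3L (mul_ne_zero hx' hq')), ?_⟩
    rw [w.ord_mul hp' (mul_ne_zero h3L (mul_ne_zero hx' hq')),
      w.ord_mul h3L (mul_ne_zero hx' hq'), w.ord_mul hx' hq', hD, h3o, e4, e5]
    rfl
  have hform : ∀ (m : ℕ) (F : MvPolynomial (Co (r + 2)) k), F.IsHomogeneous m →
      algebraMap K L (aeval (actX g x) F) = c ^ m * aeval t (aeval xq F) := by
    intro m F hF
    have e1 : algebraMap K L (aeval (actX g x) F) =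
        aeval (fun j => algebraMap K L (actX g x j)) F := by
      have e2 := congrArg (fun φ : MvPolynomial (Co (r + 2)) k →ₐ[k] L => φ F)
        (comp_aeval (actX g x) (IsScalarTower.toAlgHom k K L))
      exact e2
    have e3 : (fun j => algebraMap K L (actX g x j)) = fun j => c * aeval t (xq j) := by
      funext j
      rw [hcx, hxq]
    have e4 : aeval t (aeval xq F) = aeval (fun j => aeval t (xq j)) F := by
      rw [← AlgHom.comp_apply, comp_aeval]
    rw [e1, e3, Pool.Agent.Y896.LT.CLS.aeval_smul hF, e4]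
  let e := (finSumFinEquiv (m := 6) (n := 2 * r + 3 - 1))
  rcases hCent k L (Sy r) t w (6 + (2 * r + 3 - 1)) hE.ind hregt (by rw [card_Sy]; omega)
    (fun i => Sum.elim (TT (tg g t)) (fun j => algebraMap K L (y j)) (e.symm i)) (by
      intro i
      rcases e.symm i with j | j
      · obtain ⟨A, hA⟩ := TT_mem R0 (tg g t) ht1 j
        refine ⟨A, 1, ?_, ?_, ?_⟩
        · rw [map_one]
          exact one_ne_zero
        · rw [map_one, w.ord_one]
        · rw [map_one, div_one]
          exact hA.symm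
      · obtain ⟨m, A, B, hA, hB, hB0, hyAB, hCm⟩ := hy j
        have hBne : aeval t (aeval xq B) ≠ 0 := by
          intro h0
          have h1 := hform m B hB
          rw [h0, mul_zero] at h1
          exact hB0 ((map_eq_zero _).1 h1)
        refine ⟨aeval xq A, aeval xq B, hBne, ?_, ?_⟩
        · have h1 : 0 ≤ w.ord (aeval t (aeval xq B)) :=
            (w.reg_iff hBne).1 (Pool.Agent.Y896.LT.CLS.reg_aeval w t hregt _)
          have h2 := hregw _ (hCm (X (Pool.Agent.Y198.MC.j0 r) ^ m) (by
            have := (isHomogeneous_X k (Pool.Agent.Y198.MC.j0 r)).pow m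
            rwa [one_mul] at this))
          have h3 := hform m (X (Pool.Agent.Y198.MC.j0 r) ^ m) (by
            have := (isHomogeneous_X k (Pool.Agent.Y198.MC.j0 r)).pow m
            rwa [one_mul] at this)
          rw [map_pow (aeval xq), aeval_X, map_pow (aeval t), hxq] at h3
          rw [map_div₀, h3, hform m B hB, mul_div_mul_left _ _ (pow_ne_zero _ hc)] at h2
          have h4 := (w.reg_iff (div_ne_zero (pow_ne_zero _ hj0.1) hBne)).1 h2
          rw [w.ord_div (pow_ne_zero _ hj0.1) hBne, w.ord_pow, hj0.2, mul_zero] at h4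
          omega
        · show algebraMap K L (y j) = _
          rw [hyAB, map_div₀, hform m A hA, hform m B hB,
            mul_div_mul_left _ _ (pow_ne_zero _ hc)])
    (by
      intro p hp0
      have h1 := hres (rename e.symm p) (by
        intro h
        apply hp0
        exact rename_injective _ e.symm.injective (by rw [h, map_zero]))
      rw [aeval_rename] at h1
      exact h1) with h | ⟨h, hirr, hpos, hnd⟩
  · exact (not_triv t hE.top w h).elim
  · exact ⟨h, w, hirr, isPl_of t hE.ind hE.top w h hirr hpos hnd, hwv⟩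

end Pool.Agent.Y76.LT.EXT
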